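import Pool.Agent.Run7.h866.ZP.Vhs
import Pool.Agent.Run7.h866.ZP.Deg2
import Pool.Agent.Run7.h866.ZP.Val

/-!
# MP_0704bf_ag: Zilber-Pink for the variations of Hodge structure of all but finitely many members, with
parameters of bounded degree, of arbitrary one-parameter families of tuples of elliptic curves

**The variations.** Let `K ⊂ ℂ` be a countable field, let `P` be a finite system of polynomials in
`s_1, …, s_N` with coefficients in `K[t]`, and let `A_i`, `B_i` (`i ≤ n`) be polynomials in
`s_1, …, s_N` with coefficients in `K[t]`. For `t ∈ ℂ` let `S_t ⊂ ℂ^N` be the set of the points `s` with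
`P(s) = 0` and `4 A_i(s)³ + 27 B_i(s)² ≠ 0` for all `i` (`OnS`; the coefficients are evaluated at
`t`). Over `S_t` there are the elliptic curves

  `E_i : y² = x³ + A_i x + B_i`

and the polarizable variation of Hodge structure `V_t = ⊕ R¹π_{i*} ℤ` (on the smooth part of `S_t`, if
`S_t` is not smooth). Every family of `n`-tuples of elliptic curves over varieties `S_t` depending on a
parameter `t` is of this form after shrinking the `S_t`. The period domain of `V_t` is the product
`D` of `n` upper half planes, `Γ = SL_2(ℤ)^n`. By the elliptic modular function `jj = j = E₄³ / Δ` the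
quotient `Γ \ D` is identified with `Y(1)^n = ℂ^n`, and the period map `Φ` is given by the
`j`-invariants `6912 A_i³ / (4 A_i³ + 27 B_i²)` (`period`). The Hodge subvarieties `Γ' \ D'` of
`Γ \ D` are the special subvarieties `Z` of `Y(1)^n` (`SpecialVariety`): `Z.locus` is the set of the
points `x` with `x_i` a constant for the constant coordinates, and `x_i = j (g_i z_c)` for the
coordinates of class `c`, where `z_1, …, z_r` are free in the upper half plane and `g_i` is a fixed
integral matrix of positive determinant. (The constants are special points, or more generally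
integral over the ring `ℤ[Γ]` generated by a given finite set `Γ` of numbers algebraic over `K`.)

**Tropicalization.** Let `E` be a finite system of polynomials in `x_1, …, x_n`, `s_1, …, s_N` with
coefficients in `K[t]`, which vanish at all points `(Φ(s), s)`, `s ∈ S_t`. For instance `E` consists
of `P` and of the polynomials `(4 A_i³ + 27 B_i²) x_i - 6912 A_i³`, but one can add other polynomials
with this property. For `α ∈ ℂ` the set `Trop α E` consists of the points `w` of `(ℚ ∪ {∞})^(n+N)` such
that for every polynomial of the system the minimum of the numbers `ord_α (coefficient) + β · w`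
(over the exponents `β` of its monomials) is attained at two different exponents or is infinite.

**Types of special subvarieties.** A special subvariety `Z` of `Y(1)^n` has a type `(cls, d)`: the
partition `cls` of the coordinates which are not constant on `Z` into `r = dim Z` classes, and the
determinants `d_i > 0` of the matrices which define `Z`. A point `w` is compatible with the type
(`Compatible`) if `w_i ≥ 0` for the constant coordinates, and for coordinates `i`, `j` in the same
class either `w_i ≥ 0` and `w_j ≥ 0`, or `w_i < 0`, `w_j < 0` and `d_i d_j w_i w_j` is the square of a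
rational number. (In the Lean statement there are `0` torus coordinates and the type has a third
entry `L`, a subspace of `ℚ^0`.)

**Parameters.** Let `ψ = p / q` be a rational function whose coefficients are algebraic numbers (for
instance `ψ(s) = s`), let `R` be a finitely generated ring of algebraic numbers and let `δ` be an
integer. The parameters are the values `t = ψ(s)` at the numbers `s` of degree at most `δ` over the
quotient field of `R` (`DegreeAtMost`), at the roots `s` of the monic polynomials of degree at most `δ`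
over `R` (`IntegralAtMost`), and at the units `s`: `s` and `s⁻¹` are such roots.

**Theorem.** Let `m` be an integer, the dimension of `Φ(S_t)`, and `D` a finite set of algebraic numbers.
We assume that for every type of dimension `r < n - m` there is a set `I ⊆ D` such that `Trop α E`
contains no compatible point for all `α ∈ I`, and such that there are at least `σ` algebraic numbers
`β` with `ψ(β) ∈ I` (`GenericValues`). Then every irreducible constructible subset `W` of
`Φ(S_t) ∩ Γ' \ D'` satisfies `dim W + (n - m) ≤ dim Γ' \ D'` (`NoAtypicalHodge`)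
1. for all but finitely many values `t = ψ(s)` at the numbers `s` of degree at most `δ` over the
   quotient field of `R`, if `σ = 2 δ + 1`,
2. for all but finitely many values `t = ψ(s)` at the integral numbers `s` of degree at most `δ`, if
   `σ = 2 δ`,
3. for all but finitely many values at the units of degree at most `δ`, if there are at least `2 δ - 1`
   nonzero numbers `β` with `ψ(β) ∈ I`.

This says that `codim Φ(Z) ≥ codim Φ(S_t) + codim Γ' \ D'` for all special subvarieties `Z` of `S_t`
for `V_t` (`Z` a component of `Φ⁻¹(Γ' \ D')`), if `dim Φ(S_t) = m`. So there is no atypical special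
subvariety, except possibly those contained in the singular locus `S^sing`, a proper closed subset,
in which every special subvariety is atypical by definition. For `Z = S_t` one gets that
`Φ(S_t)` is contained in no proper special subvariety if `n > m`.

The starting file `TropicalWeierstrassFamilies` treats the parameters in one finitely generated field,
ring or group of units (`ψ = X` and `δ = 1`, for fields of algebraic numbers). Here one gets for instance
all quadratic integers and all numbers of degree at most `δ`, which do not belong to a finitely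
generated field. The arithmetic is that of `MP_d83ecd_ag.BoundedDegreeNumberFields` and
`MP_22337f_ag.IntegersAndUnitsOfBoundedDegree` (this run).
-/

set_option autoImplicit false

namespace Pool.Agent.Results.MP_0704bf_ag.BoundedDegreeMembers

open MvPolynomial Pool.Agent.R424.TG
open Pool.Agent.Y152.RP.FamM (evalAt)

/-- `t` is the value of the rational function `p / q` at `s`, which is not a pole. -/
def IsValue (p q : Polynomial ℂ) (s t : ℂ) : Prop :=
  q.eval s ≠ 0 ∧ t * q.eval s = p.eval s

/-- `s` is a root of a monic polynomial of degree at most `δ` with coefficients in the ring generated by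
`F`. -/
def IntegralAtMost (F : Finset ℂ) (δ : ℕ) (s : ℂ) : Prop :=
  ∃ f : Polynomial ℂ, f.Monic ∧ f.natDegree ≤ δ ∧
    (∀ j, f.coeff j ∈ Subring.closure (F : Set ℂ)) ∧ f.eval s = 0

/-- `s` is algebraic of degree at most `δ` over the field generated by `F`. -/
def DegreeAtMost (F : Finset ℂ) (δ : ℕ) (s : ℂ) : Prop :=
  ∃ f : Polynomial ℂ, f ≠ 0 ∧ f.natDegree ≤ δ ∧
    (∀ j, f.coeff j ∈ Subfield.closure (F : Set ℂ)) ∧ f.eval s = 0

/-- For every type `(cls, d, L)` of special subvarieties of dimension less than `n + k - m` there is a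
subset `I` of `D`, and a set `J` of algebraic numbers `β` with values `(p / q) (β) ∈ I` and with the
property `large J`, such that the tropicalizations at the elements of `I` have no compatible
point. -/
def GenericValues {K : Subfield ℂ} {n k N : ℕ} {κ : Type} (p q : Polynomial ℂ)
    (large : Finset ℂ → Prop) (m : ℕ)
    (P : κ → MvPolynomial ((Fin n ⊕ Fin k) ⊕ Fin N) (Polynomial K)) (D : Finset ℂ) : Prop :=
  ∀ (r : ℕ) (cls : Fin n → Option (Fin r)) (d : Fin n → ℕ) (L : Submodule ℚ (Fin k → ℚ)),
    (∀ i, 0 < d i) → r + Module.finrank ℚ L + m < n + k →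
      ∃ I ⊆ D, (∃ J : Finset ℂ, large J ∧ ∀ β ∈ J, IsAlgebraic ℚ β ∧ ∃ α ∈ I, IsValue p q β α) ∧
        ∀ α ∈ I, ∀ w ∈ Trop α P, ¬ Compatible cls d L w

/-- Zilber-Pink for the variations of Hodge structure of the members, with parameters of bounded
degree, of arbitrary one-parameter families of `n`-tuples of elliptic curves. -/
theorem result (K : Subfield ℂ) [Countable K] (κ₀ κ : Type) [Finite κ] (n N m : ℕ)
    (P : κ₀ → MvPolynomial (Fin N) (Polynomial K))
    (A B : Fin n → MvPolynomial (Fin N) (Polynomial K))
    (E : κ → MvPolynomial ((Fin n ⊕ Fin 0) ⊕ Fin N) (Polynomial K))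
    (hE : ∀ (t : ℂ) (s : Fin N → ℂ), OnS (evalAt K t) P A B (fun j : Fin 0 => j.elim0) s → ∀ q,
      eval₂ (evalAt K t)
        (Sum.elim (period (evalAt K t) A B (fun j : Fin 0 => j.elim0) s) s) (E q) = 0)
    (D : Finset ℂ) (hD : ∀ α ∈ D, IsAlgebraic K α) (Γ : Finset ℂ)
    (hΓ : ∀ γ ∈ Γ, IsAlgebraic K γ) (p q : Polynomial ℂ) (hp : ∀ j, IsAlgebraic ℚ (p.coeff j))
    (hq : ∀ j, IsAlgebraic ℚ (q.coeff j)) (F : Finset ℂ) (hF : ∀ z ∈ F, IsAlgebraic ℚ z)
    (δ : ℕ) :
    (GenericValues p q (fun J => 2 * δ + 1 ≤ J.card) m E D →
      {t : ℂ | (∃ s, DegreeAtMost F δ s ∧ IsValue p q s t) ∧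
        ¬ NoAtypicalHodge (algebraMap (Algebra.adjoin ℤ (Γ : Set ℂ)) ℂ) K m
          (image (evalAt K t) P A B fun j : Fin 0 => j.elim0)}.Finite) ∧
    (GenericValues p q (fun J => 2 * δ ≤ J.card) m E D →
      {t : ℂ | (∃ s, IntegralAtMost F δ s ∧ IsValue p q s t) ∧
        ¬ NoAtypicalHodge (algebraMap (Algebra.adjoin ℤ (Γ : Set ℂ)) ℂ) K m
          (image (evalAt K t) P A B fun j : Fin 0 => j.elim0)}.Finite) ∧
    (GenericValues p q (fun J => (∀ β ∈ J, β ≠ 0) ∧ 2 * δ ≤ J.card + 1) m E D →
      {t : ℂ | (∃ s, s ≠ 0 ∧ IntegralAtMost F δ s ∧ IntegralAtMost F δ s⁻¹ ∧ IsValue p q s t) ∧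
        ¬ NoAtypicalHodge (algebraMap (Algebra.adjoin ℤ (Γ : Set ℂ)) ℂ) K m
          (image (evalAt K t) P A B fun j : Fin 0 => j.elim0)}.Finite) := by
  classical
  have hp' : ∀ j, IsAlgebraic K (p.coeff j) := fun j => (hp j).tower_top K
  have hq' : ∀ j, IsAlgebraic K (q.coeff j) := fun j => (hq j).tower_top K
  refine ⟨fun hgen => ?_, fun hgen => ?_, fun hgen => ?_⟩
  · refine Pool.Agent.Run7.h866.ZP.familyHodge K κ₀ κ n 0 N m P A B _ E hE D hD Γ hΓ
      {t : ℂ | ∃ s, DegreeAtMost F δ s ∧ IsValue p q s t} fun r cls d L hd hr => ?_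
    obtain ⟨I, hI, ⟨J, hJ, hJI⟩, hno⟩ := hgen r cls d L hd hr
    exact ⟨I, hI, Pool.Agent.Run7.h866.ZP.hits_value hp' hq'
      (fun β hβ => ⟨(hJI β hβ).1.tower_top K, (hJI β hβ).2⟩)
      (Pool.Agent.Run7.h866.ZP.hits_degree F hF J (fun β hβ => (hJI β hβ).1) δ hJ), hno⟩
  · refine Pool.Agent.Run7.h866.ZP.familyHodge K κ₀ κ n 0 N m P A B _ E hE D hD Γ hΓ
      {t : ℂ | ∃ s, IntegralAtMost F δ s ∧ IsValue p q s t} fun r cls d L hd hr => ?_
    obtain ⟨I, hI, ⟨J, hJ, hJI⟩, hno⟩ := hgen r cls d L hd hr
    exact ⟨I, hI, Pool.Agent.Run7.h866.ZP.hits_value hp' hq'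
      (fun β hβ => ⟨(hJI β hβ).1.tower_top K, (hJI β hβ).2⟩)
      (Pool.Agent.Run7.h866.ZP.hits_integral F hF J (fun β hβ => (hJI β hβ).1) δ hJ), hno⟩
  · refine Pool.Agent.Run7.h866.ZP.familyHodge K κ₀ κ n 0 N m P A B _ E hE D hD Γ hΓ
      {t : ℂ | ∃ s, s ≠ 0 ∧ IntegralAtMost F δ s ∧ IntegralAtMost F δ s⁻¹ ∧ IsValue p q s t}
      fun r cls d L hd hr => ?_
    obtain ⟨I, hI, ⟨J, ⟨hJ0, hJ⟩, hJI⟩, hno⟩ := hgen r cls d L hd hr
    have hJe : J.erase 0 = J := Finset.erase_eq_of_notMem fun h => hJ0 0 h rfl
    refine ⟨I, hI, (Pool.Agent.Run7.h866.ZP.hits_value hp' hq'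
      (fun β hβ => ⟨(hJI β hβ).1.tower_top K, (hJI β hβ).2⟩)
      (Pool.Agent.Run7.h866.ZP.hits_units_degree F hF J (fun β hβ => (hJI β hβ).1) δ
        (by rw [hJe]; exact hJ))).mono ?_ subset_rfl, hno⟩
    rintro t ⟨s, h1, h2, h3, h4⟩
    exact ⟨s, ⟨h1, h2, h3⟩, h4⟩

end Pool.Agent.Results.MP_0704bf_ag.BoundedDegreeMembers
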