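import Pool.Agent.Run7.h893.GH.Re
import Pool.Agent.Run7.h893.Kept.HypergeometricOrthogonal
import Pool.Agent.Y118.HX.Ex

/-!
# Products of hypergeometric variations of Hodge structure: almost all integral points are Hodge generic

Let `a_1, …, a_m` be rational numbers in `(0, 1)` and `θ = z d/dz`. The hypergeometric operators `θ^n - z Q(θ)` with
`Q(x) = ∏_j (x + a_j) (x + 1 - a_j)`, `n = 2m`, and `Q(x) = (x + 1/2) ∏_j (x + a_j) (x + 1 - a_j)`, `n = 2m + 1`, have
maximally unipotent monodromy at `z = 0` and underlie irreducible variations of Hodge structure of rank `n` and weight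
`n - 1` with all Hodge numbers `h^{p,q} = 1` (`Eqn`; for example the transcendental parts of the middle cohomology of the
mirror families of elliptic curves, K3 surfaces and Calabi–Yau threefolds and fourfolds with one parameter), with
symplectic monodromy for even and orthogonal monodromy for odd `n`. Let `𝕍_i`, `1 ≤ i ≤ k`, be such variations (of any
ranks, also several copies of the same one), and let `𝕍 = ⊞_i 𝕍_i` be the variation on `(ℙ¹ - {0, 1, ∞})^k` with the fibre
`⨁_i 𝕍_{i, z_i}` at `z = (z_1, …, z_k)`.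

We prove that for almost all integral points `t = (t_1, …, t_k)` of every box the Lie algebra of the Mumford–Tate group of
the Hodge structure `⨁_i 𝕍_{i, 1/t_i}` contains the full Lie algebra `⨁_i 𝔤_i`, `𝔤_i` the symplectic or orthogonal Lie
algebra of the polarisation. Hence the point `(1/t_1, …, 1/t_k)` is outside of the Hodge locus of all tensor constructions
of `𝕍`, except for the points on the special subvarieties which are accounted for by the exceptional set of relative size
`N^(-c)` (among these are the graphs of the correspondences between equal or isogenous factors). The bound for the number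
of exceptional points is the same for all rational structures.

In the coordinates of the Frobenius basis `f_0, …, f_{n-1}` the step `F^p` of the Hodge filtration at `z = 1/t` is for
`2p ≥ n` the span of the rows `(θ^i f_0, …, θ^i f_{n-1})`, `i + p < n`, and for `2p < n` it is the orthogonal complement of
`F^{n-p}`. The rational structure is given by an invertible matrix `C`, with periods of the limit as entries, for which the
flat form is proportional to a rational form `A`.

The proof (`Pool/Agent/Run7/h893/GH`): the determinants `det (v_j X_i A w_jᵀ)` for a basis `X_i` of a rational Lie algebra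
`𝔪` whose complexification contains the Hodge operator vanish if the Hodge types of the `v_j`, `w_j` do not add up to zero.
These are relations of bounded degree between the periods with rational coefficients. So they are invariant under the
groups `G_i` (theorem of `HypergeometricOrthogonal`, MP_57341d_ag), and `𝔪` is stable under the Hodge operators of all
conjugates. Hence `𝔪` is normalised by all root vectors, and contains them.
-/

set_option autoImplicit false

open PowerSeries Matrix

namespace Pool.Agent.Results.MP_0704bf_ag.HodgeGenericOrthogonal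

/-- A hypergeometric variation: the parity of the rank and the exponents `a_j` (besides `1 - a_j` and `1 / 2`) -/
structure Eqn where
  odd : Bool
  m : ℕ
  a : Fin m → ℚ

/-- the rank: `2m + 1` or `2m` -/
def Eqn.order (e : Eqn) : ℕ := match e.odd with
  | true => 2 * e.m + 1
  | false => 2 * e.m

/-- the polynomial `Q`: `(x + 1/2) ∏_j (x + a_j) (x + 1 - a_j)` for odd and `∏_j (x + a_j) (x + 1 - a_j)` for even rank -/
noncomputable def Eqn.poly (e : Eqn) : Polynomial ℚ := match e.odd with
  | true => (Polynomial.X + Polynomial.C (1 / 2)) *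
      ∏ j, ((Polynomial.X + Polynomial.C (e.a j)) * (Polynomial.X + Polynomial.C (1 - e.a j)))
  | false => ∏ j, ((Polynomial.X + Polynomial.C (e.a j)) * (Polynomial.X + Polynomial.C (1 - e.a j)))

/-- `m ≥ 1` and `0 < a_j < 1` -/
def Eqn.Admissible (e : Eqn) : Prop := 1 ≤ e.m ∧ ∀ j, 0 < e.a j ∧ e.a j < 1

/-- the power series `k + ε` in the variable `ε` -/
noncomputable def shift (k : ℕ) : PowerSeries ℚ := C (k : ℚ) + X

/-- `a_k(ε) = ∏_{l < k} Q(l + ε) / (l + 1 + ε)^n`. The series `∑_k a_k(ε) z^(k + ε)` solves the equation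
`(θ^n - z Q(θ)) f = ε^n z^ε`, hence its coefficients `f_j` at `ε^j` with `j < n` are solutions of the homogeneous
equation. -/
noncomputable def Eqn.frob (e : Eqn) (k : ℕ) : PowerSeries ℚ :=
  ∏ l ∈ Finset.range k, (Polynomial.aeval (shift l) e.poly * ((shift (l + 1))⁻¹) ^ e.order)

/-- The row `((θ^i f_j)(1 / t))_j`, where `f_j(z)` is the coefficient of `ε^j` in the series `∑_k a_k(ε) z^(k + ε)`,
`z^ε = ∑_l (log z)^l ε^l / l!`. -/
noncomputable def Eqn.per (e : Eqn) (t i : ℕ) : Fin e.order → ℂ := fun j =>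
  ∑ l ∈ Finset.range ((j : ℕ) + 1), ((Real.log (1 / t) ^ l / l.factorial : ℝ) : ℂ) *
    ∑' k : ℕ, ((coeff ((j : ℕ) - l) (shift k ^ i * e.frob k) : ℚ) : ℂ) * (1 / (t : ℂ)) ^ k

/-- the matrix of the flat form in the Frobenius basis, alternating for even and symmetric for odd `n` -/
def S (n : ℕ) : Matrix (Fin n) (Fin n) ℂ := Matrix.of fun i j => if (i : ℕ) + j + 1 = n then (-1) ^ (i : ℕ) else 0

/-- a rational matrix as a complex matrix -/
def toC {ι : Type} (M : Matrix ι ι ℚ) : Matrix ι ι ℂ := M.map fun x : ℚ => (x : ℂ)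

/-- The base change `C` from the Frobenius basis to rational coordinates and the rational form `(v, w) ↦ v A wᵀ` on `ℚ^n`
(row vectors) are a rational structure with a form: the form is proportional to the flat form `S`. -/
structure RationalStructure {n : ℕ} (C : Matrix (Fin n) (Fin n) ℂ) (A : Matrix (Fin n) (Fin n) ℚ) : Prop where
  det : C.det ≠ 0
  form : ∃ κ : ℂ, κ ≠ 0 ∧ C * toC A * C.transpose = κ • S n

/-- The step `F^p` of the Hodge filtration at the point `z = 1 / t` in the rational coordinates: the span of the rows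
`(θ^i f_j)_j C`, `i + p < n`, if `2p ≥ n`, and the orthogonal complement of `F^{n-p}` if `2p < n`. -/
noncomputable def Eqn.F (e : Eqn) (t : ℕ) (C : Matrix (Fin e.order) (Fin e.order) ℂ)
    (A : Matrix (Fin e.order) (Fin e.order) ℚ) (p : ℕ) : Submodule ℂ (Fin e.order → ℂ) :=
  if e.order ≤ 2 * p then Submodule.span ℂ {v | ∃ i : ℕ, i + p < e.order ∧ v = Matrix.vecMul (e.per t i) C}
  else
    { carrier := {v | ∀ j, j < p → dotProduct v (Matrix.mulVec (toC A) (Matrix.vecMul (e.per t j) C)) = 0}
      add_mem' := fun {a b} ha hb j hj => by rw [add_dotProduct, ha j hj, hb j hj, add_zero]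
      zero_mem' := fun j _ => zero_dotProduct _
      smul_mem' := fun c a ha j hj => by rw [smul_dotProduct, ha j hj, smul_zero] }

/-- The filtration `F` is a Hodge structure of weight `n - 1` on `ℚ^n` with the form `A`: it is decreasing and opposed to
its complex conjugate (no non-zero vector `v` satisfies `v ∈ F^p` and `conj v ∈ F^{n-p}`), and the form satisfies the first
bilinear relation. (The second bilinear relation is not used.) -/
structure IsHodge {n : ℕ} (F : ℕ → Submodule ℂ (Fin n → ℂ)) (A : Matrix (Fin n) (Fin n) ℚ) : Prop where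
  decreasing : ∀ p, F (p + 1) ≤ F p
  opposed : ∀ p ≤ n, ∀ v ∈ F p, star v ∈ F (n - p) → v = 0
  orthogonal : ∀ p q, n ≤ p + q → ∀ v ∈ F p, ∀ w ∈ F q, dotProduct v (Matrix.mulVec (toC A) w) = 0

variable {k : ℕ}

/-- the indices of the coordinates of the sum of the fibres -/
abbrev Ind (e : Fin k → Eqn) : Type := Σ i, Fin (e i).order

/-- The Hodge operator of the sum: the multiplication by `p` on `H^{p, n-1-p}` of all summands, where `H^{p, n-1-p}` is the
set of the `v ∈ F^p` with `conj v ∈ F^{n-1-p}`. It generates with the scalars of the summands the Lie algebra of the image of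
the Deligne torus and is the derivative of the cocharacter `z ↦ (z^p on H^{p,q})`. Matrices act on rows from the right. -/
def IsHodgeOperator {e : Fin k → Eqn} (F : ∀ i, ℕ → Submodule ℂ (Fin (e i).order → ℂ)) (Φ : Matrix (Ind e) (Ind e) ℂ) :
    Prop :=
  ∀ (i : Fin k) (p : ℕ), p < (e i).order → ∀ v ∈ F i p, star v ∈ F i ((e i).order - 1 - p) →
    Matrix.vecMul (fun x : Ind e => (Pi.single i v : ∀ j, Fin (e j).order → ℂ) x.1 x.2) Φ =
      (p : ℂ) • fun x : Ind e => (Pi.single i v : ∀ j, Fin (e j).order → ℂ) x.1 x.2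

/-- Every rational Lie algebra of matrices whose complexification contains the Hodge operator (for example the Lie algebra
of the Mumford–Tate group of the sum) contains the Lie algebras `{X_i : X_i A_i + A_i X_iᵀ = 0}` of the symplectic and
orthogonal groups of the forms `A_i`. -/
def HodgeGeneric {e : Fin k → Eqn} (A : ∀ i, Matrix (Fin (e i).order) (Fin (e i).order) ℚ)
    (F : ∀ i, ℕ → Submodule ℂ (Fin (e i).order → ℂ)) : Prop :=
  ∀ 𝔪 : Submodule ℚ (Matrix (Ind e) (Ind e) ℚ), (∀ X ∈ 𝔪, ∀ Y ∈ 𝔪, X * Y - Y * X ∈ 𝔪) →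
    (∃ Φ, IsHodgeOperator F Φ ∧ Φ ∈ Submodule.span ℂ (toC '' (𝔪 : Set (Matrix (Ind e) (Ind e) ℚ)))) →
    ∀ X : ∀ i, Matrix (Fin (e i).order) (Fin (e i).order) ℚ, (∀ i, X i * A i + A i * (X i).transpose = 0) →
      Matrix.blockDiagonal' X ∈ 𝔪

open Run7.h893.GH Run7.h893.HO
open Pool.Agent.Y119.HZ (Yt pw Jx)
open Pool.Agent.Y119.HY (cm Hf Hc QB Jm)
open Pool.Agent.Y118.CM (DN J0 perr fa ep)

theorem toC_cm {n : ℕ} (M : Matrix (Fin n) (Fin n) ℚ) : cq M = cm M := rfl

theorem S_eq (n : ℕ) : S n = cm (J0m n) := by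
  ext i j
  rw [Pool.Agent.Y119.HY.cm_apply]
  unfold S J0m
  rw [Matrix.of_apply, Matrix.of_apply]
  split_ifs <;> simp

theorem S_eq' (n : ℕ) : S n = cm (J0 n) := by
  ext i j
  rw [Pool.Agent.Y119.HY.cm_apply]
  unfold S J0
  rw [Matrix.of_apply, Matrix.of_apply]
  split_ifs <;> simp

theorem S_sq_odd {n : ℕ} (hn : Odd n) : S n * S n = 1 := by
  ext i j
  rw [Matrix.mul_apply, Finset.sum_eq_single i.rev]
  · unfold S
    rw [of_apply, of_apply, one_apply]
    have hi := i.2
    have h1 : (i : ℕ) + i.rev + 1 = n := by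
      rw [Fin.val_rev]
      omega
    rw [if_pos h1]
    by_cases hij : i = j
    · subst hij
      rw [if_pos rfl, if_pos (by omega), ← pow_add]
      have h2 : (i : ℕ) + i.rev = n - 1 := by omega
      rw [h2]
      obtain ⟨m, hm⟩ := hn
      exact Even.neg_one_pow ⟨m, by omega⟩
    · rw [if_neg hij, if_neg, mul_zero]
      intro h2
      apply hij
      apply Fin.ext
      omega
  · intro c _ hc
    unfold S
    rw [of_apply, if_neg, zero_mul]
    intro h
    apply hc
    apply Fin.ext
    rw [Fin.val_rev]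
    omega
  · intro h
    exact absurd (Finset.mem_univ _) h

theorem frob_even {m : ℕ} (a : Fin m → ℚ) (k : ℕ) : Eqn.frob ⟨false, m, a⟩ k = fa a k := by
  unfold Eqn.frob fa
  refine Finset.prod_congr rfl fun l _ => ?_
  show Polynomial.aeval (shift l) (∏ j, ((Polynomial.X + Polynomial.C (a j)) * (Polynomial.X + Polynomial.C (1 - a j)))) *
    ((shift (l + 1))⁻¹) ^ (2 * m) = _
  rw [map_prod, Finset.prod_mul_distrib, Finset.prod_const, Finset.card_univ, Fintype.card_fin, ← pow_mul]
  congr 1
  · refine Finset.prod_congr rfl fun j _ => ?_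
    simp only [map_mul, map_add, Polynomial.aeval_X, Polynomial.aeval_C]
    show (shift l + C (a j)) * (shift l + C (1 - a j)) = _
    unfold shift ep
    simp only [map_sub, map_add, map_one]
    ring
  · unfold shift ep
    push_cast
    rfl

theorem per_even {m : ℕ} (a : Fin m → ℚ) (t i : ℕ) : Eqn.per ⟨false, m, a⟩ t i = perr a t i := by
  funext j
  unfold Eqn.per perr Pool.Agent.Y118.CM.eta
  refine Finset.sum_congr rfl fun l _ => ?_
  simp only [frob_even]
  rfl

theorem poly_odd {m : ℕ} (a : Fin m → ℚ) : Eqn.poly ⟨true, m, a⟩ = QP fun j => a j - 1 / 2 := by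
  unfold Eqn.poly QP
  simp only
  congr 1
  refine Finset.prod_congr rfl fun j _ => ?_
  simp only [map_sub, map_one, map_pow]
  have h1 : (Polynomial.C (1 / 2 : ℚ)) * 2 = 1 := by
    rw [show (2 : Polynomial ℚ) = Polynomial.C 2 from rfl, ← Polynomial.C_mul]
    norm_num
  linear_combination (-(Polynomial.X + Polynomial.C (a j))) * h1

theorem per_odd {m : ℕ} (a : Fin m → ℚ) (t : ℕ) (i : Fin (2 * m + 1)) : Eqn.per ⟨true, m, a⟩ t i =
    Yt (2 * m + 1) (QP fun j => a j - 1 / 2) t i := by
  have h1 := Pool.Agent.Results.MP_57341d_ag.HypergeometricOrthogonal.Y_eq ⟨true, m, fun j => a j - 1 / 2⟩ t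
  have h2 := congrFun h1 i
  rw [show Pool.Agent.Results.MP_57341d_ag.HypergeometricOrthogonal.Eqn.poly ⟨true, m, fun j => a j - 1 / 2⟩ =
    QP fun j => a j - 1 / 2 from rfl] at h2
  have h3 : Eqn.per ⟨true, m, a⟩ t i =
      Pool.Agent.Results.MP_57341d_ag.HypergeometricOrthogonal.Eqn.Y ⟨true, m, fun j => a j - 1 / 2⟩ t i := by
    funext j
    unfold Eqn.per Pool.Agent.Results.MP_57341d_ag.HypergeometricOrthogonal.Eqn.Y Eqn.frob
      Pool.Agent.Results.MP_57341d_ag.HypergeometricOrthogonal.Eqn.frob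
    rw [poly_odd]
    rfl
  rw [h3]
  exact h2

/-- the data of one equation -/
theorem datum (e : Eqn) (he : e.Admissible) : ∃ (Q : Polynomial ℚ) (J : Matrix (Fin e.order) (Fin e.order) ℂ)
    (B : ℂ → Matrix (Fin e.order) (Fin e.order) ℂ) (R : Matrix (Fin e.order) (Fin e.order) ℂ)
    (D : Matrix (Fin e.order) (Fin e.order) ℚ), Fam e.order Q J B ∧ R.det ≠ 0 ∧ D.det ≠ 0 ∧
      (∃ c : ℂ, c ≠ 0 ∧ R * S e.order * R.transpose = c • J⁻¹) ∧
      (∀ t : ℕ, 2 ≤ t → ∀ (C : Matrix (Fin e.order) (Fin e.order) ℂ) (a : Fin e.order), 2 * (a : ℕ) + 1 < e.order →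
        Matrix.vecMul (e.per t a) C = (cq D * (Yt e.order Q t * (R * C))) a) ∧
      ∀ t : ℕ, ∃ N : Matrix (Fin e.order) (Fin e.order) ℚ, B (((1 / (t : ℝ) : ℝ)) : ℂ) = cq N := by
  obtain ⟨_ | _, m, a⟩ := e
  · -- even rank
    obtain ⟨hm, ha⟩ := he
    simp only at hm ha
    have hβ : ∀ j, ∀ b : ℤ, a j ≠ b := by
      intro j b h
      have h1 := ha j
      rw [h] at h1
      have h2 : (0 : ℤ) < b := by exact_mod_cast h1.1
      have h3 : b < (1 : ℤ) := by exact_mod_cast h1.2
      omega
    have hQ : Pool.Agent.Y119.HY.QD (2 * m) (QB a) := Pool.Agent.Y119.HZ.QD_QB hm (Pool.Agent.Y118.HX.beta' hβ)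
    have hu := Pool.Agent.Y118.CM.DN_unit hQ
    have h1 : cm (DN a) * cm (DN a)⁻¹ = 1 := by
      rw [← Pool.Agent.Y119.HY.cm_mul, Matrix.mul_nonsing_inv _ hu, Pool.Agent.Y119.HY.cm_one]
    have h1' : cm (DN a)⁻¹ * cm (DN a) = 1 := by
      rw [← Pool.Agent.Y119.HY.cm_mul, Matrix.nonsing_inv_mul _ hu, Pool.Agent.Y119.HY.cm_one]
    refine ⟨QB a, cm (Jm (2 * m) (QB a)), fun _ => cm (Jm (2 * m) (QB a)), cm (DN a)⁻¹, DN a, fam_even hm hβ, ?_, hu.ne_zero,
      ⟨-(-1) ^ m, neg_ne_zero.2 (pow_ne_zero _ (by norm_num)), ?_⟩, ?_, fun t => ⟨Jm (2 * m) (QB a), rfl⟩⟩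
    · intro h
      have h' : (cm (DN a)⁻¹).det = 0 := h
      have h2 := congrArg Matrix.det h1
      rw [Matrix.det_mul, h', mul_zero, Matrix.det_one] at h2
      exact zero_ne_one h2
    · show cm (DN a)⁻¹ * S (2 * m) * (cm (DN a)⁻¹).transpose = _
      have hSS : S (2 * m) * S (2 * m) = -1 := by
        rw [S_eq', ← Pool.Agent.Y119.HY.cm_mul, Pool.Agent.Y118.CM.J0_sq ⟨m, by ring⟩, Pool.Agent.Y119.HY.cm_neg,
          Pool.Agent.Y119.HY.cm_one]
      have hJ : cm (Jm (2 * m) (QB a)) = ((-1 : ℂ) ^ m) • ((cm (DN a)).transpose * S (2 * m) * cm (DN a)) := by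
        rw [S_eq', Pool.Agent.Y118.CM.form_relc, smul_smul, ← mul_pow]
        norm_num
      have hJu : IsUnit (cm (Jm (2 * m) (QB a))).det := isUnit_iff_ne_zero.2 (Pool.Agent.Y119.HY.Jc_det hQ)
      have h2 : cm (DN a)⁻¹ * S (2 * m) * (cm (DN a)⁻¹).transpose * cm (Jm (2 * m) (QB a)) = (-(-1) ^ m : ℂ) • 1 := by
        rw [hJ, Matrix.mul_smul]
        calc (-1 : ℂ) ^ m • (cm (DN a)⁻¹ * S (2 * m) * (cm (DN a)⁻¹).transpose *
              ((cm (DN a)).transpose * S (2 * m) * cm (DN a))) =
            (-1 : ℂ) ^ m • (cm (DN a)⁻¹ * S (2 * m) * (cm (DN a) * cm (DN a)⁻¹).transpose * S (2 * m) * cm (DN a)) := by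
              rw [Matrix.transpose_mul]
              simp only [Matrix.mul_assoc]
          _ = (-1 : ℂ) ^ m • (cm (DN a)⁻¹ * (S (2 * m) * S (2 * m)) * cm (DN a)) := by
              rw [h1, Matrix.transpose_one, Matrix.mul_one]
              simp only [Matrix.mul_assoc]
          _ = _ := by
              rw [hSS, Matrix.mul_neg, Matrix.mul_one, Matrix.neg_mul, h1', smul_neg, neg_smul]
      calc cm (DN a)⁻¹ * S (2 * m) * (cm (DN a)⁻¹).transpose =
          cm (DN a)⁻¹ * S (2 * m) * (cm (DN a)⁻¹).transpose * cm (Jm (2 * m) (QB a)) * (cm (Jm (2 * m) (QB a)))⁻¹ := by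
            rw [Matrix.mul_assoc _ (cm (Jm (2 * m) (QB a))), Matrix.mul_nonsing_inv _ hJu, Matrix.mul_one]
        _ = _ := by
            rw [h2, Matrix.smul_mul, Matrix.one_mul]
            rfl
    · intro t ht (C : Matrix (Fin (2 * m)) (Fin (2 * m)) ℂ) b hb
      have hb' : (b : ℕ) < m := by
        have h2 : 2 * (b : ℕ) + 1 < 2 * m := hb
        omega
      rw [per_even]
      have h2 := Pool.Agent.Y118.HX.row_eq hm hβ ht b hb' C
      refine h2.trans ?_
      have h3 : cm (DN a) * Hf (Hc (2 * m) (QB a)) (((1 / (t : ℝ) : ℝ)) : ℂ) * Pool.Agent.Y118.CM.Cc a t C =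
          cq (DN a) * (Yt (2 * m) (QB a) t * (cm (DN a)⁻¹ * C)) := by
        unfold Pool.Agent.Y118.CM.Cc Yt
        rw [Pool.Agent.Y118.CM.DN_commE hQ, toC_cm]
        simp only [Matrix.mul_assoc]
      rw [h3]
      rfl
  · -- odd rank
    obtain ⟨hm, ha⟩ := he
    simp only at hm ha
    have hβ : ∀ j, ∀ b : ℤ, (fun j => a j - 1 / 2) j ≠ b + 1 / 2 := by
      intro j b h
      have h1 := ha j
      simp only at h
      have h4 : a j = ((b + 1 : ℤ) : ℚ) := by
        push_cast
        linear_combination h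
      rw [h4] at h1
      have h2 : (0 : ℤ) < b + 1 := by exact_mod_cast h1.1
      have h3 : b + 1 < (1 : ℤ) := by exact_mod_cast h1.2
      omega
    have hSS : S (2 * m + 1) * S (2 * m + 1) = 1 := S_sq_odd ⟨m, rfl⟩
    refine ⟨QP fun j => a j - 1 / 2, cm (J0m (2 * m + 1)), _, 1, 1, fam_odd hm hβ, ?_, ?_, ⟨1, one_ne_zero, ?_⟩, ?_,
      fun t => ⟨J0m (2 * m + 1) - (1 / (t : ℚ)) • J1m (2 * m + 1) (QP fun j => a j - 1 / 2), ?_⟩⟩
    · rw [Matrix.det_one]
      exact one_ne_zero
    · rw [Matrix.det_one]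
      exact one_ne_zero
    · rw [Matrix.transpose_one, Matrix.one_mul, Matrix.mul_one, one_smul]
      show S (2 * m + 1) = (cm (J0m (2 * m + 1)))⁻¹
      rw [← S_eq]
      exact (Matrix.inv_eq_right_inv hSS).symm
    · intro t ht C b hb
      rw [per_odd, cq_one, Matrix.one_mul, Matrix.one_mul]
      rfl
    · ext i j
      unfold Bz
      rw [Matrix.sub_apply, Matrix.smul_apply]
      unfold cq
      rw [Matrix.map_apply, Matrix.sub_apply, Matrix.smul_apply, smul_eq_mul, smul_eq_mul, Pool.Agent.Y119.HY.cm_apply,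
        Pool.Agent.Y119.HY.cm_apply]
      push_cast
      ring

theorem S_T (e : Eqn) : (S e.order).transpose = (match e.odd with
    | true => (1 : ℚ)
    | false => -1 : ℚ) • S e.order := by
  obtain ⟨_ | _, m, a⟩ := e
  · show (S (2 * m)).transpose = (-1 : ℚ) • S (2 * m)
    ext i j
    have hi := i.2
    have hj := j.2
    rw [transpose_apply, Matrix.smul_apply]
    unfold S
    rw [of_apply, of_apply]
    by_cases h : (i : ℕ) + j + 1 = 2 * m
    · rw [if_pos (by omega), if_pos h]
      rcases Nat.even_or_odd (i : ℕ) with he | ho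
      · have hjo : Odd (j : ℕ) := by
          obtain ⟨b, hb⟩ := he
          exact ⟨m - b - 1, by omega⟩
        rw [he.neg_one_pow, hjo.neg_one_pow]
        norm_num
      · have hje : Even (j : ℕ) := by
          obtain ⟨b, hb⟩ := ho
          exact ⟨m - b - 1, by omega⟩
        rw [ho.neg_one_pow, hje.neg_one_pow]
        norm_num
    · rw [if_neg (by omega), if_neg h, smul_zero]
  · show (S (2 * m + 1)).transpose = (1 : ℚ) • S (2 * m + 1)
    ext i j
    have hi := i.2
    have hj := j.2
    rw [transpose_apply, one_smul]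
    unfold S
    rw [of_apply, of_apply]
    by_cases h : (i : ℕ) + j + 1 = 2 * m + 1
    · rw [if_pos (by omega), if_pos h]
      rcases Nat.even_or_odd (i : ℕ) with he | ho
      · have hje : Even (j : ℕ) := by
          obtain ⟨b, hb⟩ := he
          exact ⟨m - b, by omega⟩
        rw [he.neg_one_pow, hje.neg_one_pow]
      · have hjo : Odd (j : ℕ) := by
          obtain ⟨b, hb⟩ := ho
          exact ⟨m - b - 1, by omega⟩
        rw [ho.neg_one_pow, hjo.neg_one_pow]
    · rw [if_neg (by omega), if_neg h]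

/-- the sign of the form -/
def Eqn.sgn (e : Eqn) : ℚ := match e.odd with
  | true => 1
  | false => -1

theorem sgn_cases (e : Eqn) : e.sgn = -1 ∨ (e.sgn = 1 ∧ Odd e.order) := by
  obtain ⟨_ | _, m, a⟩ := e
  · exact Or.inl rfl
  · exact Or.inr ⟨rfl, m, rfl⟩

theorem S_det (e : Eqn) (he : e.Admissible) : (S e.order).det ≠ 0 := by
  obtain ⟨Q, J, B, R, D, hF, hR, -, ⟨c, hc, hc'⟩, -⟩ := datum e he
  intro h0
  have h1 := congrArg Matrix.det hc'
  rw [det_mul, det_mul, h0, mul_zero, zero_mul, det_smul] at h1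
  have h2 : (J⁻¹).det ≠ 0 := by
    rw [det_nonsing_inv, Ring.inverse_eq_inv]
    exact inv_ne_zero hF.det
  exact mul_ne_zero (pow_ne_zero _ hc) h2 h1.symm

theorem order_pos {e : Eqn} (he : e.Admissible) : 1 ≤ e.order := by
  obtain ⟨_ | _, m, a⟩ := e
  · obtain ⟨hm, -⟩ := he
    show 1 ≤ 2 * m
    simp only at hm
    omega
  · show 1 ≤ 2 * m + 1
    omega

/-- consequences for the rational form -/
theorem rat_form {e : Eqn} (he : e.Admissible) {C : Matrix (Fin e.order) (Fin e.order) ℂ}
    {A : Matrix (Fin e.order) (Fin e.order) ℚ} (h : RationalStructure C A) : A.det ≠ 0 ∧ A.transpose = e.sgn • A := by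
  obtain ⟨hC, κ, hκ, hA⟩ := h
  have hAc : C * cq A * C.transpose = κ • S e.order := hA
  have hCu : IsUnit C.det := isUnit_iff_ne_zero.2 hC
  have hCt : IsUnit C.transpose.det := by
    rw [det_transpose]
    exact hCu
  constructor
  · intro h0
    have h1 := congrArg Matrix.det hAc
    have h2 : (cq A).det = 0 := by
      have h3 : (cq A).det = ((A.det : ℚ) : ℂ) := by
        have := (RingHom.map_det (Rat.castHom ℂ) A)
        rw [show ((A.det : ℚ) : ℂ) = (Rat.castHom ℂ) A.det from rfl, this]
        rfl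
      rw [h3, h0, Rat.cast_zero]
    rw [det_mul, det_mul, h2, mul_zero, zero_mul, det_smul] at h1
    exact mul_ne_zero (pow_ne_zero _ hκ) (S_det e he) h1.symm
  · have h1 := congrArg Matrix.transpose hAc
    have h2 : (S e.order).transpose = e.sgn • S e.order := S_T e
    rw [transpose_mul, transpose_mul, transpose_transpose, transpose_smul, h2] at h1
    have h3 : C * ((cq A).transpose - ((e.sgn : ℚ) : ℂ) • cq A) * C.transpose = 0 := by
      rw [Matrix.mul_sub, Matrix.sub_mul, Matrix.mul_smul, Matrix.smul_mul, hAc, Matrix.mul_assoc, h1, smul_smul]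
      have h4 : κ • e.sgn • S e.order = (((e.sgn : ℚ) : ℂ) * κ) • S e.order := by
        ext i j
        simp only [Matrix.smul_apply, smul_eq_mul, Rat.smul_def]
        ring
      rw [h4, sub_self]
    have h4 := congrArg (fun Z => C⁻¹ * Z * (C.transpose)⁻¹) h3
    simp only [Matrix.mul_zero, Matrix.zero_mul] at h4
    rw [← Matrix.mul_assoc, ← Matrix.mul_assoc, nonsing_inv_mul _ hCu, Matrix.one_mul, Matrix.mul_assoc,
      mul_nonsing_inv _ hCt, Matrix.mul_one, sub_eq_zero] at h4
    ext i j
    have h5 := congrFun (congrFun h4 i) j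
    rw [Matrix.smul_apply, transpose_apply] at h5
    unfold cq at h5
    rw [map_apply, map_apply, smul_eq_mul] at h5
    rw [Matrix.smul_apply, transpose_apply, smul_eq_mul]
    exact_mod_cast h5

/-- Let `e_i`, `1 ≤ i ≤ k`, be admissible hypergeometric variations. (1) There are `c > 0` and `C₀` such that for all
rational structures `(C_i, A_i)` and every box `∏_i (x_i, x_i + N]` with `x_i ≥ 1` for all but
`C₀ N^(k-1) ∑_i (1 + N / (x_i + N)^c)` integral points `t` of the box the following holds: if the filtrations `F_i` of the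
fibres at `1 / t_i` are Hodge structures with the forms `A_i`, then every rational Lie algebra of endomorphisms of their sum
whose complexification contains the Hodge operator, in particular the Lie algebra of the Mumford–Tate group, contains the
symplectic and orthogonal Lie algebras of all the `A_i`. (2) Rational structures exist. -/
theorem result (k : ℕ) (e : Fin k → Eqn) (he : ∀ i, (e i).Admissible) :
    (∃ c C₀ : ℝ, 0 < c ∧ ∀ (C : ∀ i, Matrix (Fin (e i).order) (Fin (e i).order) ℂ)
      (A : ∀ i, Matrix (Fin (e i).order) (Fin (e i).order) ℚ), (∀ i, RationalStructure (C i) (A i)) →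
      ∀ (x : Fin k → ℕ) (N : ℕ), (∀ i, 1 ≤ x i) → 1 ≤ N →
      (({t : Fin k → ℕ | (∀ i, x i < t i ∧ t i ≤ x i + N) ∧ (∀ i, IsHodge ((e i).F (t i) (C i) (A i)) (A i)) ∧
        ¬ HodgeGeneric A fun i => (e i).F (t i) (C i) (A i)}.ncard : ℕ) : ℝ) ≤
        C₀ * (N : ℝ) ^ (k - 1) * ∑ i, (1 + N / ((x i : ℝ) + N) ^ c)) ∧
    ∀ i, ∃ (C : Matrix (Fin (e i).order) (Fin (e i).order) ℂ) (A : Matrix (Fin (e i).order) (Fin (e i).order) ℚ),
      RationalStructure C A := by
  classical
  refine ⟨?_, fun i => ?_⟩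
  · choose Q J B R D hFam hR hD hc hrow hB using fun i => datum (e i) (he i)
    obtain ⟨c, C₀, hc0, -, hmain⟩ := tuples_log k (2 * (Fintype.card (Ind e) * Fintype.card (Ind e))) 1
      (fun i => (e i).order) Q J B hFam
    refine ⟨c, C₀, hc0, ?_⟩
    intro C A hCA x N hx hN
    set T := {t : Fin k → ℕ | (∀ i, x i < t i ∧ t i ≤ x i + N) ∧ (∀ i, IsHodge ((e i).F (t i) (C i) (A i)) (A i)) ∧
        ¬ HodgeGeneric A fun i => (e i).F (t i) (C i) (A i)} with hT
    have hfin : T.Finite := by
      refine (Set.finite_Iic (fun i : Fin k => x i + N)).subset ?_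
      intro t ht i
      exact (ht.1 i).2
    rw [Set.ncard_eq_toFinset_card T hfin]
    have hfv : Module.Finite ℚ (Run7.h893.DR.Vp 1 0) := Run7.h893.DR.Vp_finite 1 0
    refine hmain (Run7.h893.DR.Vp 1 0) (Run7.h893.DR.Vp_rank 1 0) (fun i => R i * C i) x N hx hN _ fun t ht => ?_
    have ht' : t ∈ T := hfin.mem_toFinset.1 ht
    obtain ⟨hbox, hHodge, hnot⟩ := ht'
    refine ⟨hbox, ?_⟩
    by_contra hno
    apply hnot
    have ht2 : ∀ i, 2 ≤ t i := fun i => by
      have h3 := (hbox i).1
      have h4 := hx i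
      omega
    have hRC : ∀ i, (R i * C i).det ≠ 0 := fun i => by
      rw [det_mul]
      exact mul_ne_zero (hR i) (hCA i).det
    -- the form
    have hform : ∀ i, ∃ κ : ℂ, κ ≠ 0 ∧ (R i * C i) * cq (A i) * (R i * C i).transpose = κ • (J i)⁻¹ := by
      intro i
      obtain ⟨c₁, hc1, hc2⟩ := hc i
      obtain ⟨κ, hκ, hA⟩ := (hCA i).form
      refine ⟨κ * c₁, mul_ne_zero hκ hc1, ?_⟩
      have hA' : C i * cq (A i) * (C i).transpose = κ • S (e i).order := hA
      rw [transpose_mul]
      calc R i * C i * cq (A i) * ((C i).transpose * (R i).transpose) =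
          R i * (C i * cq (A i) * (C i).transpose) * (R i).transpose := by simp only [Matrix.mul_assoc]
        _ = _ := by rw [hA', Matrix.mul_smul, Matrix.smul_mul, hc2, smul_smul]
    choose κ hκ hκA using hform
    have hYJ : ∀ i, IsUnit (Yt (e i).order (Q i) (t i)).det ∧ IsUnit (B i (((1 / (t i : ℝ) : ℝ)) : ℂ)).det := by
      intro i
      have h1 := congrArg Matrix.det ((hFam i).Yt_form (ht2 i))
      rw [det_mul, det_mul, det_transpose] at h1
      have h2 := (hFam i).det
      constructor
      · rw [isUnit_iff_ne_zero]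
        intro h0
        rw [h0, mul_zero] at h1
        exact h2 h1.symm
      · rw [isUnit_iff_ne_zero]
        intro h0
        rw [h0, mul_zero, zero_mul] at h1
        exact h2 h1.symm
    choose N' hN' using fun i => hB i (t i)
    have hPA : ∀ i, (Yt (e i).order (Q i) (t i) * (R i * C i)) * cq (A i) *
        (Yt (e i).order (Q i) (t i) * (R i * C i)).transpose = κ i • cq (N' i)⁻¹ := by
      intro i
      have hBu := (hYJ i).2
      have hJu : IsUnit (J i).det := isUnit_iff_ne_zero.2 (hFam i).det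
      have hNu : (N' i).det ≠ 0 := by
        intro h0
        have h3 : (cq (N' i)).det = (((N' i).det : ℚ) : ℂ) := by
          have := (RingHom.map_det (Rat.castHom ℂ) (N' i))
          rw [show (((N' i).det : ℚ) : ℂ) = (Rat.castHom ℂ) (N' i).det from rfl, this]
          rfl
        rw [hN' i, h3, h0, Rat.cast_zero] at hBu
        exact not_isUnit_zero hBu
      have h1 : B i (((1 / (t i : ℝ) : ℝ)) : ℂ) * cq (N' i)⁻¹ = 1 := by
        rw [hN', ← cq_mul, Matrix.mul_nonsing_inv _ (isUnit_iff_ne_zero.2 hNu), cq_one]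
      have h2 := (hFam i).Yt_form (ht2 i)
      set Y := Yt (e i).order (Q i) (t i) with hY
      set B' := B i (((1 / (t i : ℝ) : ℝ)) : ℂ) with hB'
      have h3 : Y * (J i)⁻¹ * Y.transpose * B' = 1 := by
        have h4 : ((J i)⁻¹ * Y.transpose * B') * Y = 1 := by
          rw [Matrix.mul_assoc, Matrix.mul_assoc, ← Matrix.mul_assoc Y.transpose, h2, nonsing_inv_mul _ hJu]
        have h5 := mul_eq_one_comm.1 h4
        rw [← h5]
        simp only [Matrix.mul_assoc]
      have h4 : Y * (J i)⁻¹ * Y.transpose = cq (N' i)⁻¹ := by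
        calc Y * (J i)⁻¹ * Y.transpose = Y * (J i)⁻¹ * Y.transpose * (B' * cq (N' i)⁻¹) := by rw [h1, Matrix.mul_one]
          _ = (Y * (J i)⁻¹ * Y.transpose * B') * cq (N' i)⁻¹ := by simp only [Matrix.mul_assoc]
          _ = _ := by rw [h3, Matrix.one_mul]
      rw [transpose_mul Y]
      calc Y * (R i * C i) * cq (A i) * ((R i * C i).transpose * Y.transpose) =
          Y * ((R i * C i) * cq (A i) * (R i * C i).transpose) * Y.transpose := by simp only [Matrix.mul_assoc]
        _ = _ := by rw [hκA, Matrix.mul_smul, Matrix.smul_mul, h4]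
    have hrat := fun i => rat_form (he i) (hCA i)
    have hRel := rel_of hFam hRC hκ hκA ht2 hno
    intro 𝔪 hbr hΦ X hX
    obtain ⟨Φ, hΦ1, hΦ2⟩ := hΦ
    exact sum_generic (n := fun i => (e i).order) (P := fun i => Yt (e i).order (Q i) (t i) * (R i * C i)) (D := D)
      (BI := fun i => (N' i)⁻¹) (κ := κ) (v := fun i j => Matrix.vecMul ((e i).per (t i) j) (C i))
      (fun i => order_pos (he i)) (fun i => by
        rw [det_mul]
        exact mul_ne_zero (hYJ i).1.ne_zero (hRC i)) hD (fun i => (hrat i).1) hκ hPA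
      (fun i a ha => hrow i (t i) (ht2 i) (C i) a ha)
      (fun i => ⟨(hHodge i).decreasing, (hHodge i).opposed, (hHodge i).orthogonal⟩) (fun i => (hrat i).2)
      (fun i => sgn_cases (e i)) hRel hbr hΦ1 hΦ2 hX
  · have hpi : (2 * (Real.pi : ℂ) * Complex.I) ≠ 0 := Complex.two_pi_I_ne_zero
    refine ⟨Matrix.diagonal fun j => ((2 * (Real.pi : ℂ) * Complex.I)⁻¹) ^ (j : ℕ),
      Matrix.of fun j l => if (j : ℕ) + l + 1 = (e i).order then (-1) ^ (j : ℕ) else 0, ?_,
      ((2 * (Real.pi : ℂ) * Complex.I)⁻¹) ^ ((e i).order - 1), pow_ne_zero _ (inv_ne_zero hpi), ?_⟩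
    · rw [Matrix.det_diagonal]
      exact Finset.prod_ne_zero_iff.2 fun j _ => pow_ne_zero _ (inv_ne_zero hpi)
    · ext j l
      rw [Matrix.diagonal_transpose, Matrix.mul_diagonal, Matrix.diagonal_mul, Matrix.smul_apply, smul_eq_mul]
      unfold S toC
      rw [Matrix.map_apply, Matrix.of_apply, Matrix.of_apply]
      by_cases h : (j : ℕ) + l + 1 = (e i).order
      · rw [if_pos h, if_pos h]
        have h2 : (e i).order - 1 = j + l := by omega
        rw [h2, pow_add]
        push_cast
        ring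
      · rw [if_neg h, if_neg h]
        push_cast
        ring

end Pool.Agent.Results.MP_0704bf_ag.HodgeGenericOrthogonal
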