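import Pool.Agent.Run7.h866.ZP.Vhs
import Pool.Agent.Run7.h866.ZP.Iter

/-!
# MP_0704bf_ag: Zilber-Pink for the variations of Hodge structure of all but finitely many members, with
parameters in the orbits and iterated images of a rational function, of arbitrary one-parameter
families of tuples of elliptic curves

**The variations.** Let `K ⊂ ℂ` be a countable field, let `P` be a finite system of polynomials in
`s_1, …, s_N` with coefficients in `K[t]`, and let `A_i`, `B_i` (`i ≤ n`) be polynomials in
`s_1, …, s_N` with coefficients in `K[t]`. For `t ∈ ℂ` let `S_t ⊂ ℂ^N` be the set of the points `s` with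
`P(s) = 0` and `4 A_i(s)³ + 27 B_i(s)² ≠ 0` for all `i` (`OnS`; the coefficients are evaluated at
`t`). Over `S_t` there are the elliptic curves

  `E_i : y² = x³ + A_i x + B_i`

and the polarizable variation of Hodge structure `V_t = ⊕ R¹π_{i*} ℤ` (on the smooth part of `S_t`, if
`S_t` is not smooth). Every family of `n`-tuples of elliptic curves over varieties `S_t` depending on a
parameter `t` is of this form after shrinking the `S_t`. The period domain of `V_t` is the product
`D` of `n` upper half planes, `Γ = SL_2(ℤ)^n`. By the elliptic modular function `jj = j = E₄³ / Δ` the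
quotient `Γ \ D` is identified with `Y(1)^n = ℂ^n`, and the period map `Φ` is given by the
`j`-invariants `6912 A_i³ / (4 A_i³ + 27 B_i²)` (`period`). The Hodge subvarieties `Γ' \ D'` of
`Γ \ D` are the special subvarieties `Z` of `Y(1)^n` (`SpecialVariety`): `Z.locus` is the set of the
points `x` with `x_i` a constant for the constant coordinates, and `x_i = j (g_i z_c)` for the
coordinates of class `c`, where `z_1, …, z_r` are free in the upper half plane and `g_i` is a fixed
integral matrix of positive determinant. (The constants are special points, or more generally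
integral over the ring `ℤ[Γ]` generated by a given finite set `Γ` of numbers algebraic over `K`.)

**Tropicalization.** Let `E` be a finite system of polynomials in `x_1, …, x_n`, `s_1, …, s_N` with
coefficients in `K[t]`, which vanish at all points `(Φ(s), s)`, `s ∈ S_t`. For instance `E` consists
of `P` and of the polynomials `(4 A_i³ + 27 B_i²) x_i - 6912 A_i³`, but one can add other polynomials
with this property. For `α ∈ ℂ` the set `Trop α E` consists of the points `w` of `(ℚ ∪ {∞})^(n+N)` such
that for every polynomial of the system the minimum of the numbers `ord_α (coefficient) + β · w`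
(over the exponents `β` of its monomials) is attained at two different exponents or is infinite.

**Types of special subvarieties.** A special subvariety `Z` of `Y(1)^n` has a type `(cls, d)`: the
partition `cls` of the coordinates which are not constant on `Z` into `r = dim Z` classes, and the
determinants `d_i > 0` of the matrices which define `Z`. A point `w` is compatible with the type
(`Compatible`) if `w_i ≥ 0` for the constant coordinates, and for coordinates `i`, `j` in the same
class either `w_i ≥ 0` and `w_j ≥ 0`, or `w_i < 0`, `w_j < 0` and `d_i d_j w_i w_j` is the square of a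
rational number. (In the Lean statement there are `0` torus coordinates and the type has a third
entry `L`, a subspace of `ℚ^0`.)

**Parameters.** Let `φ = p / q` be a rational function of degree at least two over `K` (`p` and `q` are
coprime), as a self-map of the projective line, and let `φ^ν` be its iterates (`IterValue`). By a
well-known theorem the backward orbit of a point is infinite, with at most two exceptions (which are
the points `∞` for polynomials, and `0`, `∞` for the power maps, up to a change of coordinates).

**Theorem.** Let `m` be an integer, the dimension of `Φ(S_t)`, and `D` a finite set of numbers algebraic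
over `K` with infinite backward orbits under `φ`, such that for every type of dimension `r < n - m` there
is an element `α` of `D` such that `Trop α E` contains no compatible point (`Generic`). Then every
irreducible constructible subset `W` of `Φ(S_t) ∩ Γ' \ D'` satisfies
`dim W + (n - m) ≤ dim Γ' \ D'` (`NoAtypicalHodge`)
1. for all but finitely many `t` in the forward orbit `t₀, φ(t₀), φ(φ(t₀)), …` of any number `t₀`
   algebraic over `K`,
2. for all but finitely many `t ∈ ⋃_{ν ≥ ρ} φ^ν(F)`, for every finitely generated field `F` of numbers
   algebraic over `K`, with a `ρ` which does not depend on `F`.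

This says that `codim Φ(Z) ≥ codim Φ(S_t) + codim Γ' \ D'` for all special subvarieties `Z` of `S_t`
for `V_t` (`Z` a component of `Φ⁻¹(Γ' \ D')`), if `dim Φ(S_t) = m`. So there is no atypical special
subvariety, except possibly those contained in the singular locus `S^sing`, a proper closed subset,
in which every special subvariety is atypical by definition. For `Z = S_t` one gets that
`Φ(S_t)` is contained in no proper special subvariety if `n > m`.

One degenerate parameter is sufficient, whereas for all the elements of a finitely generated field
three are necessary for every type (starting file `TropicalWeierstrassFamilies`); `RandomOrbits`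
(starting file) is about random families. The arithmetic is that of `MP_22337f_ag.IteratedImages` (this
run); it uses the files of helper383 on dynamics.
-/

set_option autoImplicit false

namespace Pool.Agent.Results.MP_0704bf_ag.OrbitMembers

open MvPolynomial Pool.Agent.R424.TG
open Pool.Agent.Y152.RP.FamM (evalAt)

/-- The form `∑ p_j x^j y^(e-j)` of degree `e` with the coefficients of the polynomial `p`. -/
noncomputable def form {K : Subfield ℂ} (p : Polynomial K) (e : ℕ) (x y : ℂ) : ℂ :=
  ∑ j ∈ Finset.range (e + 1), ((p.coeff j : K) : ℂ) * x ^ j * y ^ (e - j)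

/-- The rational function `p / q` on the projective line, in homogeneous coordinates. -/
noncomputable def step {K : Subfield ℂ} (p q : Polynomial K) (z : ℂ × ℂ) : ℂ × ℂ :=
  (form p (max p.natDegree q.natDegree) z.1 z.2, form q (max p.natDegree q.natDegree) z.1 z.2)

/-- The `ν`-th iterate of the rational function `p / q` on the projective line has the finite value `t`
at the number `s`. -/
def IterValue {K : Subfield ℂ} (p q : Polynomial K) (ν : ℕ) (s t : ℂ) : Prop :=
  ((step p q)^[ν] (s, 1)).2 ≠ 0 ∧ ((step p q)^[ν] (s, 1)).1 / ((step p q)^[ν] (s, 1)).2 = t

/-- Zilber-Pink for the variations of Hodge structure of the members, with parameters in the orbits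
and iterated images of a rational function, of arbitrary one-parameter families of `n`-tuples of
elliptic curves. -/
theorem result (K : Subfield ℂ) [Countable K] (κ₀ κ : Type) [Finite κ] (n N m : ℕ)
    (P : κ₀ → MvPolynomial (Fin N) (Polynomial K))
    (A B : Fin n → MvPolynomial (Fin N) (Polynomial K))
    (E : κ → MvPolynomial ((Fin n ⊕ Fin 0) ⊕ Fin N) (Polynomial K))
    (hE : ∀ (t : ℂ) (s : Fin N → ℂ), OnS (evalAt K t) P A B (fun j : Fin 0 => j.elim0) s → ∀ q,
      eval₂ (evalAt K t)
        (Sum.elim (period (evalAt K t) A B (fun j : Fin 0 => j.elim0) s) s) (E q) = 0)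
    (D : Finset ℂ) (hD : ∀ α ∈ D, IsAlgebraic K α) (hgen : Generic m 1 E D) (Γ : Finset ℂ)
    (hΓ : ∀ γ ∈ Γ, IsAlgebraic K γ)
    (p q : Polynomial K) (hpq : IsCoprime p q) (hdeg : 2 ≤ max p.natDegree q.natDegree)
    (hback : ∀ α ∈ D, {s : ℂ | ∃ ν, IterValue p q ν s α}.Infinite) :
    (∀ t₀ : ℂ, IsAlgebraic K t₀ → {t : ℂ | (∃ ν, IterValue p q ν t₀ t) ∧
      ¬ NoAtypicalHodge (algebraMap (Algebra.adjoin ℤ (Γ : Set ℂ)) ℂ) K m
        (image (evalAt K t) P A B fun j : Fin 0 => j.elim0)}.Finite) ∧
    ∃ ρ : ℕ, ∀ F : Finset ℂ, (∀ z ∈ F, IsAlgebraic K z) →
      {t : ℂ | (∃ s ∈ Subfield.closure (F : Set ℂ), ∃ ν, ρ ≤ ν ∧ IterValue p q ν s t) ∧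
        ¬ NoAtypicalHodge (algebraMap (Algebra.adjoin ℤ (Γ : Set ℂ)) ℂ) K m
          (image (evalAt K t) P A B fun j : Fin 0 => j.elim0)}.Finite := by
  classical
  refine Pool.Agent.Run7.h866.ZP.iterates p q hpq hdeg D hD hback
    (fun t => ¬ NoAtypicalHodge (algebraMap (Algebra.adjoin ℤ (Γ : Set ℂ)) ℂ) K m
      (image (evalAt K t) P A B fun j : Fin 0 => j.elim0)) fun T hT => ?_
  refine Pool.Agent.Run7.h866.ZP.familyHodge K κ₀ κ n 0 N m P A B _ E hE D hD Γ hΓ T
    fun r cls d L hd hr => ?_
  obtain ⟨I, hI, hc, hno⟩ := hgen r cls d L hd hr
  obtain ⟨α, hα⟩ := Finset.card_pos.1 (show 0 < I.card by omega)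
  refine ⟨{α}, by simpa using hI hα, hT α (hI hα), fun z hz => ?_⟩
  rw [Finset.mem_singleton.1 hz]
  exact hno α hα

end Pool.Agent.Results.MP_0704bf_ag.OrbitMembers
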