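import Pool.Agent.Run7.h972.AW.Base
import Pool.Agent.Results.MP_0704bf_ag.RandomOrbits

/-!
# MP_0704bf_ag: Zilber-Pink for variations of Hodge structure along random orbits of affine maps

The starting result `RandomOrbits` (whose definitions are used) is about the polarizable variations of
Hodge structure `V_t = ⊕ R¹π_{i*} ℤ` of elliptic curves `E_i : y² = x³ + A_i x + B_i` over a base
`S_t ⊂ ℂ^N`; everything depends on parameters `t ∈ ℤ^r`. A `Family` is a family of this kind which satisfies
a condition on the tropicalizations along some hypersurfaces `f_l = 0` in the space of the parameters;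
`Good t` says that the member at `t` has no atypical special subvarieties: every irreducible constructible
subset `W` of the intersection of the image of the period map with a special subvariety `Z` of `Y(1)^n`
satisfies `dim W + (n - m) ≤ dim Z`. The starting result considers the parameters in one random orbit of a
vector `v ≠ 0` under matrices of determinant one which generate `SL_r(ℤ/q)`, `r ≥ 2`. Here the maps are
affine and need not be invertible, families with one parameter are allowed, and there is ONE set of times
for all families and all starting vectors.

Let `x ↦ A_j x + b_j`, `j ≤ m`, be a finite family of affine maps of `ℤ^r` (`AffineWalk`) which for all `q`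
prime to some `M` are permutations of `(ℤ/q)^r` and generate a transitive group. The determinants of the
`A_j` are arbitrary nonzero integers. For instance, for `r = 1`: any finite family of maps
`x ↦ a_j x + b_j` of `ℤ`, `a_j ≠ 0`, two of which do not commute (`Run7.h972.AW.line_walk`), such as
`x ↦ 10 x + d` for the `d` in a set of at least two digits (the orbit of `0` are the initial segments of
a random decimal number with digits in this set) or `x ↦ 2 x + 1`, `x ↦ 3 x`; in general, `x ↦ A x + d`
(digits in a matrix base), or random walks on `ℤ^r` (`A_j = 1`), of which polynomially many vectors are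
visited. For independent and uniformly distributed indices `w 0, w 1, …` let `c_0 = v`,
`c_(j+1) = A_(w j) c_j + b_(w j)` (`aorb`).

**Theorem.** With probability one there is ONE set `E` of times of density zero such that for ALL starting
vectors `v` and ALL families with the condition (all `n`, `N`, `m`, all bases and all elliptic curves) the
member at `t = c_j` has no atypical special subvarieties in the above sense for all but finitely many `j`
outside `E`. For example (`r = 1`), for families over the line: for almost every sequence of digits at 100%
of its initial segments.

Proof. The vectors `t` such that for no prime `p > D` the value `f_l(t)` is divisible by `p` and `G_l(t)` is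
not, form a pronull set (starting library), and by the ergodic theorem for walks on finite groups
(`Pool.Agent.N24.RW`), applied to the group of affine permutations of `(ℤ/q)^r`, the random orbits are in
pronull sets only at times of density zero (`Run7.h972.AW`). There are countably many conditions
`(f, G, D)`.
-/

set_option autoImplicit false

namespace Pool.Agent.Results.MP_0704bf_ag.RandomAffineOrbits

open MvPolynomial MeasureTheory
open Pool.Agent.N24.RW (words)
open Pool.Agent.N676.OR (DensityZero)
open Pool.Agent.Results.MP_0704bf_ag.RandomOrbits (Family)
open Run7.h972.AW

theorem result (r : ℕ) (W : AffineWalk (Fin r)) :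
    ∀ᵐ w ∂(words W.m), ∃ E : Set ℕ, DensityZero E ∧ ∀ (v : Fin r → ℤ) (F : Family r),
      {j : ℕ | j ∉ E ∧ ¬ F.Good (aorb W v w j)}.Finite := by
  have hc : Countable (MvPolynomial (Fin r) ℤ) := by
    rw [← Cardinal.mk_le_aleph0_iff]
    exact (MvPolynomial.cardinalMk_le_max (σ := Fin r) (R := ℤ)).trans (by simp)
  filter_upwards [one_set W (κ := MvPolynomial (Fin r) ℤ × MvPolynomial (Fin r) ℤ × ℕ)
    (fun x => {c | (x.1 ≠ 0 ∧ Pool.Agent.N603.TH.Divergent x.1 x.2.1) ∧
      c ∈ Pool.Agent.N400.RO.Bd x.1 x.2.1 x.2.2})
    (fun x => proNull_imp (fun h => Pool.Agent.N400.RO.proNull_Bd _ _ x.2.2 h.1 h.2))] with w hw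
  obtain ⟨E, hE, h1⟩ := hw
  refine ⟨E, hE, fun v F => ?_⟩
  obtain ⟨h2, D, hD⟩ := F.bad
  refine (Set.finite_iUnion fun l => h1 v (F.f l, F.G l, D)).subset ?_
  rintro j ⟨hj, hj'⟩
  obtain ⟨l, hl⟩ := Set.mem_iUnion.1 (hD (show aorb W v w j ∈ {t | ¬ F.Good t} from hj'))
  exact Set.mem_iUnion.2 ⟨l, hj, h2 l, hl⟩

end Pool.Agent.Results.MP_0704bf_ag.RandomAffineOrbits
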